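import Pool.Agent.Y703.XL.Avg

/-!
# Project XL: the averages over a field `K` (transport along a ring isomorphism)
-/

set_option autoImplicit false

open scoped Classical
open Finset Filter

namespace Pool.Agent.Y703.XL

open NumberField
open Pool.Agent.Y692.QS (Ei nr)
open Pool.Agent.Y703.CT (ClsE ppr)
open Pool.Agent.Y703.XK (S_C9)

section

variable {K : Type} [Field K] [NumberField K] (j : Ei ≃+* 𝓞 K)
  (hj : ∀ z : Ei, Algebra.norm ℤ (j z) = nr z) (P : 𝓞 K → Prop)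
  (hP : ∀ D : Ei, P (j D) ↔ ClsE D)

include hj hP in
theorem setK (X : ℕ) : {D : 𝓞 K | Algebra.norm ℤ D ≤ X ∧ P D} =
    j '' ((Pool.Agent.Y699.E.Cl X : Finset Ei) : Set Ei) := by
  ext D
  obtain ⟨z, rfl⟩ := j.surjective D
  simp only [Set.mem_ofPred_eq, Set.mem_image, mem_coe]
  constructor
  · rintro ⟨h1, h2⟩
    rw [hj] at h1
    exact ⟨z, mem_cl.2 ⟨h1, (hP z).1 h2⟩, rfl⟩
  · rintro ⟨y, h1, h3⟩
    have := j.injective h3
    subst this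
    obtain ⟨h4, h5⟩ := mem_cl.1 h1
    rw [hj]
    exact ⟨h4, (hP _).2 h5⟩

include hj hP in
theorem ncardK (X : ℕ) : {D : 𝓞 K | Algebra.norm ℤ D ≤ X ∧ P D}.ncard =
    (Pool.Agent.Y699.E.Cl X).card := by
  rw [setK j hj P hP, Set.ncard_image_of_injective _ j.injective, Set.ncard_coe_finset]

include hj hP in
theorem sumK (X : ℕ) (f : 𝓞 K → ℝ) :
    ∑ᶠ D ∈ {D : 𝓞 K | Algebra.norm ℤ D ≤ X ∧ P D}, f D =
      ∑ z ∈ Pool.Agent.Y699.E.Cl X, f (j z) := by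
  rw [setK j hj P hP, finsum_mem_image j.injective.injOn, finsum_mem_coe_finset]

/-- **The average order of the Selmer group.** -/
theorem avgK (f : 𝓞 K → ℕ) (hf : ∀ D : Ei, ClsE D → f (j D) = nS (ppr D))
    (hj : ∀ z : Ei, Algebra.norm ℤ (j z) = nr z) (P : 𝓞 K → Prop)
    (hP : ∀ D : Ei, P (j D) ↔ ClsE D) :
    Tendsto (fun X : ℕ => (∑ᶠ D ∈ {D : 𝓞 K | Algebra.norm ℤ D ≤ X ∧ P D}, (f D : ℝ)) /
      ({D : 𝓞 K | Algebra.norm ℤ D ≤ X ∧ P D}.ncard : ℝ)) atTop (nhds 6) := by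
  refine t_AVG.congr fun X => ?_
  rw [sumK j hj P hP, ncardK j hj P hP]
  congr 1
  exact sum_congr rfl fun z hz => by rw [hf z (mem_cl.1 hz).2]

/-- **The average rank.** -/
theorem rankK (hL : S_LAW) (hc9 : S_C9) (g : 𝓞 K → ℕ)
    (hg : ∀ D : Ei, ClsE D → ∀ r : ℕ, nS (ppr D) = 3 ^ (r + 1) → g (j D) ≤ 2 * r)
    (hj : ∀ z : Ei, Algebra.norm ℤ (j z) = nr z) (P : 𝓞 K → Prop)
    (hP : ∀ D : Ei, P (j D) ↔ ClsE D) :
    ∀ᶠ X : ℕ in atTop, ∑ᶠ D ∈ {D : 𝓞 K | Algebra.norm ℤ D ≤ X ∧ P D}, (g D : ℝ) ≤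
      0.809 * ({D : 𝓞 K | Algebra.norm ℤ D ≤ X ∧ P D}.ncard : ℝ) := by
  refine (t_RKA hL hc9).mono fun X hX => ?_
  rw [sumK j hj P hP, ncardK j hj P hP]
  have h1 : ∑ z ∈ Pool.Agent.Y699.E.Cl X, (g (j z) : ℝ) ≤
      ∑ z ∈ Pool.Agent.Y699.E.Cl X, 2 * (rr (ppr z) : ℝ) := by
    refine sum_le_sum fun z hz => ?_
    obtain ⟨r, hr⟩ := nS_succ (cl_nonempty hz)
    rw [rr_of hr]
    exact_mod_cast hg z (mem_cl.1 hz).2 r hr
  rw [← mul_sum] at h1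
  linarith

end

end Pool.Agent.Y703.XL
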