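import Pool.Agent.Y703.XL.Stm

/-!
# Project XL: the limits sum to one
-/

set_option autoImplicit false

open scoped Classical
open Finset Filter

namespace Pool.Agent.Y703.XL

open Pool.Agent.Y759.CX (fr fr_le_one fr_nonneg)
open Pool.Agent.Y85.XK (Sy)
open Pool.Agent.Y703.XK (c9)

theorem nR_eq {V : Type} [AddCommGroup V] [Module (ZMod 3) V] [Finite V] (S : Sy V) :
    nR S = 3 ^ Module.finrank (ZMod 3) (LinearMap.ker S.1) := by
  have h : nR S = Nat.card (LinearMap.ker S.1) := by
    unfold nR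
    refine Nat.card_congr (Equiv.subtypeEquivRight fun x => ?_)
    rw [LinearMap.mem_ker]
    exact ⟨fun h => LinearMap.ext h, fun h y => by rw [h]; rfl⟩
  rw [h, Module.natCard_eq_pow_finrank (K := ZMod 3), Nat.card_zmod]

theorem ker_le {V : Type} [AddCommGroup V] [Module (ZMod 3) V] [Finite V] (S : Sy V) :
    Module.finrank (ZMod 3) (LinearMap.ker S.1) ≤ Module.finrank (ZMod 3) V :=
  Submodule.finrank_le _

/-- the probability of a radical of dimension `r` in dimension `n` -/
noncomputable def pp (n r : ℕ) : ℝ := fr (fun S : Sy (Fin n → ZMod 3) => nR S = 3 ^ r)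

theorem pow_inj {a b : ℕ} (h : (3 : ℕ) ^ a = 3 ^ b) : a = b :=
  Nat.pow_right_injective (show 2 ≤ 3 by norm_num) h

theorem pp_zero {n r : ℕ} (h : n < r) : pp n r = 0 := by
  unfold pp fr
  have : IsEmpty {S : Sy (Fin n → ZMod 3) // nR S = 3 ^ r} := by
    refine ⟨fun S => ?_⟩
    have h1 := S.2
    rw [nR_eq] at h1
    have h2 := pow_inj h1
    have h3 := ker_le S.1
    rw [Module.finrank_fin_fun] at h3
    omega
  rw [Nat.card_of_isEmpty]
  simp

theorem pp_sum (n : ℕ) : ∑ r ∈ range (n + 1), pp n r = 1 := by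
  have hfin : Finite (Sy (Fin n → ZMod 3)) := inferInstance
  obtain ⟨inst⟩ : Nonempty (Fintype (Sy (Fin n → ZMod 3))) := ⟨Fintype.ofFinite _⟩
  have hpos : (0 : ℝ) < Nat.card (Sy (Fin n → ZMod 3)) := by
    exact_mod_cast Nat.card_pos
  have h1 : ∀ r, pp n r = ((univ.filter fun S : Sy (Fin n → ZMod 3) => nR S = 3 ^ r).card : ℝ) /
      Nat.card (Sy (Fin n → ZMod 3)) := by
    intro r
    unfold pp fr
    congr 2
    rw [Nat.card_eq_fintype_card, Fintype.card_subtype]
  simp only [h1]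
  rw [← sum_div, div_eq_one_iff_eq hpos.ne']
  have h2 : (univ : Finset (Sy (Fin n → ZMod 3))).card = ∑ r ∈ range (n + 1),
      ((univ : Finset (Sy (Fin n → ZMod 3))).filter fun S =>
        Module.finrank (ZMod 3) (LinearMap.ker S.1) = r).card :=
    card_eq_sum_card_fiberwise (fun S _ => by
      rw [mem_coe, mem_range]
      have := ker_le S
      rw [Module.finrank_fin_fun] at this
      omega)
  rw [Nat.card_eq_fintype_card, ← card_univ, h2]
  push_cast
  refine sum_congr rfl fun r _ => ?_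
  congr 2
  refine filter_congr fun S _ => ?_
  rw [nR_eq]
  exact ⟨fun h => pow_inj h, fun h => by rw [h]⟩

theorem fac_ge (i : ℕ) : (2 : ℝ) ≤ (3 : ℝ) ^ (i + 1) - 1 := by
  have h : (3 : ℝ) ^ 1 ≤ 3 ^ (i + 1) := pow_le_pow_right₀ (by norm_num) (by omega)
  linarith

theorem prod_ge (r : ℕ) : (2 : ℝ) ^ r ≤ ∏ i ∈ range r, ((3 : ℝ) ^ (i + 1) - 1) := by
  induction r with
  | zero => simp
  | succ r ih =>
    rw [prod_range_succ, pow_succ]
    exact mul_le_mul ih (fac_ge r) (by norm_num) (le_trans (by positivity) ih)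

theorem pp_le (hREC : S_REC) (n r : ℕ) : pp n r ≤ 1 / ∏ i ∈ range r, ((3 : ℝ) ^ (i + 1) - 1) := by
  induction r generalizing n with
  | zero =>
    simp only [range_zero, prod_empty, div_one]
    exact fr_le_one _
  | succ r ih =>
    have hP : (0 : ℝ) < ∏ i ∈ range r, ((3 : ℝ) ^ (i + 1) - 1) :=
      lt_of_lt_of_le (by positivity) (prod_ge r)
    have hf := fac_ge r
    cases n with
    | zero =>
      rw [pp_zero (Nat.succ_pos r)]
      rw [prod_range_succ]
      exact div_nonneg zero_le_one (mul_nonneg hP.le (by linarith))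
    | succ m =>
      have h := hREC (Fin (m + 1) → ZMod 3) (Fin m → ZMod 3) r (by
        rw [Module.finrank_fin_fun, Module.finrank_fin_fun])
      rw [Module.finrank_fin_fun] at h
      have h2 := ih m
      have h3 : (0 : ℝ) ≤ pp m r := fr_nonneg _
      have h4 : (0 : ℝ) ≤ (1 / 3 : ℝ) ^ (m + 1) := by positivity
      have h5 : ((3 : ℝ) ^ (r + 1) - 1) * pp (m + 1) (r + 1) =
          (1 - (1 / 3 : ℝ) ^ (m + 1)) * pp m r := h
      have h6 : ((3 : ℝ) ^ (r + 1) - 1) * pp (m + 1) (r + 1) ≤ pp m r := by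
        rw [h5]
        nlinarith
      rw [prod_range_succ, le_div_iff₀ (mul_pos hP (by linarith))]
      rw [le_div_iff₀ hP] at h2
      calc pp (m + 1) (r + 1) * ((∏ i ∈ range r, ((3 : ℝ) ^ (i + 1) - 1)) *
            ((3 : ℝ) ^ (r + 1) - 1)) =
          (((3 : ℝ) ^ (r + 1) - 1) * pp (m + 1) (r + 1)) *
            ∏ i ∈ range r, ((3 : ℝ) ^ (i + 1) - 1) := by ring
        _ ≤ pp m r * ∏ i ∈ range r, ((3 : ℝ) ^ (i + 1) - 1) :=
          mul_le_mul_of_nonneg_right h6 hP.le
        _ ≤ 1 := h2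

/-- **The limits sum to one.** -/
theorem t_SUM (hREC : S_REC) (hLIM : S_LIM) : HasSum cr 1 := by
  have hb : ∀ n r, pp n r ≤ (1 / 2 : ℝ) ^ r := by
    intro n r
    refine (pp_le hREC n r).trans ?_
    rw [one_div_pow, one_div, one_div]
    exact inv_anti₀ (by positivity) (prod_ge r)
  have hlim : ∀ r, Tendsto (fun n => pp n r) atTop (nhds (cr r)) := by
    intro r
    rw [tendsto_iff_dist_tendsto_zero]
    have h1 : Tendsto (fun n : ℕ => (3 : ℝ) ^ r * (1 / 3) ^ n) atTop (nhds 0) := by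
      have := (tendsto_pow_atTop_nhds_zero_of_lt_one (show (0 : ℝ) ≤ 1 / 3 by norm_num)
        (by norm_num)).const_mul ((3 : ℝ) ^ r)
      rwa [mul_zero] at this
    refine squeeze_zero (fun n => dist_nonneg) (fun n => ?_) h1
    have h2 := hLIM (Fin n → ZMod 3) r
    rw [Module.finrank_fin_fun] at h2
    rw [Real.dist_eq]
    exact h2
  have hc0 : ∀ r, 0 ≤ cr r := fun r => ge_of_tendsto' (hlim r) fun n => fr_nonneg _
  have hc1 : ∀ r, cr r ≤ (1 / 2 : ℝ) ^ r := fun r => le_of_tendsto' (hlim r) fun n => hb n r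
  have hsb : Summable (fun r : ℕ => (1 / 2 : ℝ) ^ r) :=
    summable_geometric_of_lt_one (by norm_num) (by norm_num)
  have hs : Summable cr := Summable.of_nonneg_of_le hc0 hc1 hsb
  have h3 : Tendsto (fun n => ∑' r, pp n r) atTop (nhds (∑' r, cr r)) := by
    refine tendsto_tsum_of_dominated_convergence hsb hlim (Eventually.of_forall fun n r => ?_)
    have h7 : 0 ≤ pp n r := fr_nonneg _
    rw [Real.norm_eq_abs, abs_of_nonneg h7]
    exact hb n r
  have h4 : ∀ n, ∑' r, pp n r = 1 := by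
    intro n
    rw [tsum_eq_sum (s := range (n + 1)), pp_sum]
    intro r hr
    rw [mem_range, not_lt] at hr
    exact pp_zero (by omega)
  simp only [h4] at h3
  have h5 : (1 : ℝ) = ∑' r, cr r := tendsto_nhds_unique tendsto_const_nhds h3
  rw [h5]
  exact hs.hasSum

end Pool.Agent.Y703.XL
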