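import Pool.Agent.Y703.XL.Avg
import Pool.Agent.Y703.XL.Sum
import Pool.Agent.Y31.XL.REC
import Pool.Agent.Y275.XL.LIM
import Pool.Agent.Y968.XL.ABS
import Pool.Agent.Y994.XL.LA
import Pool.Agent.Y170.XL.BOX
import Pool.Agent.Y696.XL.Key3
import Pool.Agent.Y363.XK.Bil
import Pool.Agent.Y710.XK.EQ
import Pool.Agent.Y804.XK.SYM
import Pool.Agent.Y528.XK.C9
import Pool.Agent.Y474.XK.CNT
import Pool.Agent.Y433.XK.Few

/-!
# Project XL: the exact law of the Selmer groups of the cubic twists over `ℚ(ω)`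

Joint work: helper31 (number of forms with given radical), helper275 (limits), helper968 (abstract
block system), helper994 (linear algebra), helper170 (boxes), helper697 and helper696 (sum over the
boxes), helper363, helper710, helper804, helper528, helper85, helper688, helper474, helper433,
helper550 (project XK), helper699 (library and average), helper145, helper350, helper703 (plan,
statements, asymptotics).
-/

set_option autoImplicit false

open Filter

namespace Pool.Agent.Y703.XL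

theorem t_C9 : Pool.Agent.Y703.XK.S_C9 := Pool.Agent.Y528.XK.t_C9

theorem t_LIM : S_LIM :=
  Pool.Agent.Y275.XL.t_LIM Pool.Agent.Y31.XL.REC.t_REC Pool.Agent.Y804.XK.t_SYM t_C9

theorem t_LA : S_LA := Pool.Agent.Y994.XL.t_LA Pool.Agent.Y968.XL.t_ABS t_LIM

theorem t_KEG (r : ℕ) : Pool.Agent.XLK.KEG (Gr r) (cr r) (3 ^ (r + 1)) :=
  Pool.Agent.XLK.t_KEG Pool.Agent.Y363.XK.t_BIL
    (Pool.Agent.Y170.XL.t_BOX Pool.Agent.Y710.XK.t_EQ t_LA r) (by positivity)

theorem t_DQ_all : S_DQ :=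
  t_DQ t_KEG Pool.Agent.Y474.XK.t_CNT Pool.Agent.Y433.XK.t_BAD Pool.Agent.Y433.XK.t_FEW
    Pool.Agent.Y550.XK.NS.t_LOW t_C9

/-- **the exact law of the kernels** -/
theorem t_LAW : S_LAW := t_LAW_of t_DQ_all

/-- the limits sum to one -/
theorem t_SUM' : HasSum cr 1 := t_SUM Pool.Agent.Y31.XL.REC.t_REC t_LIM

/-- the average of the dimension is at most `0.4045` -/
theorem t_RKA' : ∀ᶠ X : ℕ in atTop,
    ∑ D ∈ Pool.Agent.Y699.E.Cl X, (rr (Pool.Agent.Y703.CT.ppr D) : ℝ) ≤
      0.4045 * ((Pool.Agent.Y699.E.Cl X).card : ℝ) := t_RKA t_LAW t_C9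

end Pool.Agent.Y703.XL
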