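import Mathlib
import Pool.Agent.TH841.NF.Tm
import Pool.Agent.TH841.SH.ShaDef

/-!
# The endomorphism `√-3` of `y² + D y = x³`
-/

set_option autoImplicit false
set_option linter.unusedSectionVars false
set_option linter.unusedVariables false

open scoped Classical

namespace Pool.Agent.Y703.XL.Inf

open WeierstrassCurve
open Pool.Agent.TH841.NF (Sc tF tF_zero tF_some tF_add ns_iff)
open Pool.Agent.TH841.SH.D (Pt act)

/-- the curve `y² + D y = x³` -/
def E1 {K : Type} [Field K] (D : K) : WeierstrassCurve K := ⟨0, 0, D, 0, 0⟩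

/-- `(x, y) ↦ (z x, y)` -/
noncomputable def rot {K : Type} [Field K] (D z : K) (L : Type) [Field L] [Algebra K L] :
    Pt (E1 D) L → Pt (E1 D) L
  | 0 => 0
  | .some x y _ =>
    if h : ((E1 D).baseChange L).toAffine.Nonsingular (algebraMap K L z * x) y then .some _ y h
    else 0

section pts
variable {K : Type} [Field K] [CharZero K] {D z : K} {L : Type} [Field L] [Algebra K L]

lemma eqn (x y : L) : ((E1 D).baseChange L).toAffine.Equation x y ↔
    y ^ 2 + algebraMap K L D * y = x ^ 3 := by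
  rw [Affine.equation_iff]
  simp [E1]

lemma scz (hz : z ^ 2 + z + 1 = 0) : Sc (RingHom.id L) ((algebraMap K L z) ^ 2)
    ((E1 D).baseChange L) ((E1 D).baseChange L) where
  hu := by
    intro h
    have h1 : algebraMap K L z = 0 := pow_eq_zero_iff (two_ne_zero) |>.1 h
    have h2 : z = 0 := (map_eq_zero _).1 h1
    rw [h2] at hz
    norm_num at hz
  h1 := by
    show algebraMap K _ 0 = algebraMap K _ 0 * _
    simp
  h2 := by
    show algebraMap K _ 0 = algebraMap K _ 0 * _
    simp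
  h3 := by
    show algebraMap K _ D = algebraMap K _ D * _
    have h3 : z ^ 3 = 1 := by linear_combination (z - 1) * hz
    rw [← pow_mul, ← map_pow]
    have h4 : z ^ (2 * 3) = 1 := by rw [mul_comm, pow_mul, h3, one_pow]
    rw [h4, map_one, mul_one]
  h4 := by
    show algebraMap K _ 0 = algebraMap K _ 0 * _
    simp
  h6 := by
    show algebraMap K _ 0 = algebraMap K _ 0 * _
    simp

/-- the rotation is additive -/
noncomputable def rh (hz : z ^ 2 + z + 1 = 0) : Pt (E1 D) L →+ Pt (E1 D) L :=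
  ⟨⟨tF (scz hz), rfl⟩, tF_add (scz hz)⟩

lemma pt_ext {F : Type} [Field F] {W : WeierstrassCurve F} {x y x' y' : F}
    (h : W.toAffine.Nonsingular x y) (h' : W.toAffine.Nonsingular x' y') (hx : x = x')
    (hy : y = y') : (Affine.Point.some x y h : W.toAffine.Point) = .some x' y' h' := by
  subst hx hy
  rfl

lemma z3 (hz : z ^ 2 + z + 1 = 0) : (algebraMap K L z) ^ 3 = 1 := by
  have h3 : z ^ 3 = 1 := by linear_combination (z - 1) * hz
  rw [← map_pow, h3, map_one]

lemma rns (hz : z ^ 2 + z + 1 = 0) {x y : L}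
    (h : ((E1 D).baseChange L).toAffine.Nonsingular x y) :
    ((E1 D).baseChange L).toAffine.Nonsingular (algebraMap K L z * x) y := by
  have h1 := (ns_iff (scz (D := D) (L := L) hz) x y).2 h
  have h3 := z3 (L := L) hz
  have e1 : RingHom.id L x * ((algebraMap K L z) ^ 2) ^ 2 = algebraMap K L z * x := by
    rw [RingHom.id_apply]; linear_combination (algebraMap K L z) * x * h3
  have e2 : RingHom.id L y * ((algebraMap K L z) ^ 2) ^ 3 = y := by
    rw [RingHom.id_apply]
    linear_combination y * ((algebraMap K L z) ^ 3 + 1) * h3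
  rwa [e1, e2] at h1

lemma rh_some (hz : z ^ 2 + z + 1 = 0) {x y : L}
    (h : ((E1 D).baseChange L).toAffine.Nonsingular x y) :
    rh hz (Affine.Point.some x y h : Pt (E1 D) L) =
      Affine.Point.some (algebraMap K L z * x) y (rns hz h) := by
  have h3 := z3 (L := L) hz
  refine pt_ext _ _ ?_ ?_
  · rw [RingHom.id_apply]; linear_combination (algebraMap K L z) * x * h3
  · rw [RingHom.id_apply]
    linear_combination y * ((algebraMap K L z) ^ 3 + 1) * h3

lemma rot_eq (hz : z ^ 2 + z + 1 = 0) (P : Pt (E1 D) L) : rot D z L P = rh hz P := by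
  rcases P with _ | ⟨x, y, h⟩
  · rfl
  · rw [rh_some]
    exact dif_pos (rns hz h)

/-- the endomorphism -/
noncomputable def ph (hz : z ^ 2 + z + 1 = 0) : Pt (E1 D) L →+ Pt (E1 D) L :=
  AddMonoidHom.id _ + (2 : ℕ) • rh hz

lemma ph_apply (hz : z ^ 2 + z + 1 = 0) (P : Pt (E1 D) L) : ph hz P = P + 2 • rh hz P := rfl

end pts

section more
variable {K : Type} [Field K] [CharZero K] {D z : K} {L : Type} [Field L] [Algebra K L]

lemma ch (K : Type) [Field K] [CharZero K] (L : Type) [Field L] [Algebra K L] : CharZero L :=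
  charZero_of_injective_algebraMap (algebraMap K L).injective

lemma negY' (x y : L) : ((E1 D).baseChange L).toAffine.negY x y = -y - algebraMap K L D := by
  rw [Affine.negY]
  simp [E1]

lemma zz (hz : z ^ 2 + z + 1 = 0) :
    (algebraMap K L z) ^ 2 + algebraMap K L z + 1 = 0 := by
  rw [← map_pow, ← map_one (algebraMap K L), ← map_add, ← map_add, hz, map_zero]

lemma z_ne (hz : z ^ 2 + z + 1 = 0) : algebraMap K L z ≠ 0 := by
  intro h
  have h1 := zz (L := L) hz
  rw [h] at h1
  norm_num at h1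

lemma z_ne1 (hz : z ^ 2 + z + 1 = 0) : algebraMap K L z ≠ 1 := by
  have := ch K L
  intro h
  have h1 := zz (L := L) hz
  rw [h] at h1
  norm_num at h1

/-- a point -/
def pp (x y : L) (h : ((E1 D).baseChange L).toAffine.Nonsingular x y) : Pt (E1 D) L :=
  Affine.Point.some x y h

lemma pp_cases (P : Pt (E1 D) L) : P = 0 ∨ ∃ x y h, P = pp x y h := by
  rcases P with _ | ⟨x, y, h⟩
  · exact Or.inl rfl
  · exact Or.inr ⟨x, y, h, rfl⟩

lemma pp_ne {x y : L} (h : ((E1 D).baseChange L).toAffine.Nonsingular x y) :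
    (pp x y h : Pt (E1 D) L) ≠ 0 := Affine.Point.some_ne_zero h

lemma pp_ext {x y x' y' : L} (h : ((E1 D).baseChange L).toAffine.Nonsingular x y)
    (h' : ((E1 D).baseChange L).toAffine.Nonsingular x' y') (hx : x = x') (hy : y = y') :
    (pp x y h : Pt (E1 D) L) = pp x' y' h' := pt_ext h h' hx hy

lemma pp_inj {x y x' y' : L} {h : ((E1 D).baseChange L).toAffine.Nonsingular x y}
    {h' : ((E1 D).baseChange L).toAffine.Nonsingular x' y'}
    (e : (pp x y h : Pt (E1 D) L) = pp x' y' h') : x = x' ∧ y = y' := by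
  unfold pp at e
  exact (Affine.Point.some.injEq ..).mp e

lemma rh_pp (hz : z ^ 2 + z + 1 = 0) {x y : L}
    (h : ((E1 D).baseChange L).toAffine.Nonsingular x y) :
    rh hz (pp x y h) = pp (algebraMap K L z * x) y (rns hz h) := rh_some hz h

lemma nns {x y : L} (h : ((E1 D).baseChange L).toAffine.Nonsingular x y) :
    ((E1 D).baseChange L).toAffine.Nonsingular x (-y - algebraMap K L D) := by
  rw [← negY']
  exact (Affine.nonsingular_neg ..).2 h

lemma neg_pp {x y : L} (h : ((E1 D).baseChange L).toAffine.Nonsingular x y) :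
    -(pp x y h : Pt (E1 D) L) = pp x (-y - algebraMap K L D) (nns h) :=
  (Affine.Point.neg_some h).trans (pt_ext _ _ rfl (negY' x y))

lemma add_pp {x₁ y₁ x₂ y₂ l : L} (h₁ : ((E1 D).baseChange L).toAffine.Nonsingular x₁ y₁)
    (h₂ : ((E1 D).baseChange L).toAffine.Nonsingular x₂ y₂)
    (hxy : ¬(x₁ = x₂ ∧ y₁ = ((E1 D).baseChange L).toAffine.negY x₂ y₂))
    (hl : ((E1 D).baseChange L).toAffine.slope x₁ x₂ y₁ y₂ = l) :
    ∃ h, (pp x₁ y₁ h₁ + pp x₂ y₂ h₂ : Pt (E1 D) L) = pp (l ^ 2 - x₁ - x₂)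
      (-(l * (l ^ 2 - x₁ - x₂ - x₁) + y₁) - algebraMap K L D) h := by
  have e1 : (pp x₁ y₁ h₁ + pp x₂ y₂ h₂ : Pt (E1 D) L) = _ :=
    Affine.Point.add_some hxy (h₁ := h₁) (h₂ := h₂)
  have hX : ((E1 D).baseChange L).toAffine.addX x₁ x₂
      (((E1 D).baseChange L).toAffine.slope x₁ x₂ y₁ y₂) = l ^ 2 - x₁ - x₂ := by
    rw [hl, Affine.addX]
    have a1 : ((E1 D).baseChange L).toAffine.a₁ = 0 := map_zero (algebraMap K L)
    have a2 : ((E1 D).baseChange L).toAffine.a₂ = 0 := map_zero (algebraMap K L)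
    rw [a1, a2]
    ring
  have hY : ((E1 D).baseChange L).toAffine.addY x₁ x₂ y₁
      (((E1 D).baseChange L).toAffine.slope x₁ x₂ y₁ y₂) =
      -(l * (l ^ 2 - x₁ - x₂ - x₁) + y₁) - algebraMap K L D := by
    rw [Affine.addY, Affine.negAddY, hX, negY', hl]
  have h3 := Affine.nonsingular_add h₁ h₂ hxy
  rw [hX, hY] at h3
  exact ⟨h3, e1.trans (pt_ext _ _ hX hY)⟩

/-- `(0, y) + (0, y) = (0, -y - D)` -/
lemma dbl0 (hD : D ≠ 0) {y : L} (h : ((E1 D).baseChange L).toAffine.Nonsingular 0 y) :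
    (pp 0 y h + pp 0 y h : Pt (E1 D) L) = -(pp 0 y h : Pt (E1 D) L) := by
  have := ch K L
  have hD' : algebraMap K L D ≠ 0 := fun e => hD ((map_eq_zero _).1 e)
  have h1 : y ^ 2 + algebraMap K L D * y = 0 := by
    rw [(eqn _ _).1 h.1]; ring
  have hy : y ≠ ((E1 D).baseChange L).toAffine.negY 0 y := by
    rw [negY']
    intro e
    have h2 : (algebraMap K L D) ^ 2 = 0 := by
      linear_combination (2 * y + algebraMap K L D) * e - 4 * h1
    exact hD' (pow_eq_zero_iff two_ne_zero |>.1 h2)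
  have hs : ((E1 D).baseChange L).toAffine.slope 0 0 y y = 0 := by
    rw [Affine.slope_of_Y_ne rfl hy]
    simp [E1]
  obtain ⟨h', e1⟩ := add_pp h h (fun hh => hy hh.2) hs
  rw [e1, neg_pp]
  exact pp_ext _ _ (by ring) (by ring)

lemma nrm (hD : D ≠ 0) (hz : z ^ 2 + z + 1 = 0) (P : Pt (E1 D) L) :
    P + rh hz P + rh hz (rh hz P) = 0 := by
  have := ch K L
  rcases pp_cases P with rfl | ⟨x, y, h, rfl⟩
  · rw [map_zero, map_zero, add_zero, add_zero]
  · rw [rh_pp, rh_pp]
    by_cases hx : x = 0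
    · subst hx
      have e1 : (pp (algebraMap K L z * 0) y (rns hz h) : Pt (E1 D) L) =
          pp 0 y h := pp_ext _ _ (mul_zero _) rfl
      have e2 : (pp (algebraMap K L z * (algebraMap K L z * 0)) y
          (rns hz (rns hz h)) : Pt (E1 D) L) =
          pp 0 y h := pp_ext _ _ (by rw [mul_zero, mul_zero]) rfl
      rw [e1, e2, dbl0 hD h, neg_add_cancel]
    · have hne : x ≠ algebraMap K L z * x := by
        intro e
        have h1 : (algebraMap K L z - 1) * x = 0 := by linear_combination -e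
        rcases mul_eq_zero.1 h1 with h2 | h2
        · exact z_ne1 hz (sub_eq_zero.1 h2)
        · exact hx h2
      have hs : ((E1 D).baseChange L).toAffine.slope x (algebraMap K L z * x) y y = 0 := by
        rw [Affine.slope_of_X_ne hne, sub_self, zero_div]
      have h4 := zz (L := L) hz
      obtain ⟨h', e1⟩ := add_pp h (rns hz h) (fun hh => hne hh.1) hs
      have e2 : (pp x y h + pp (algebraMap K L z * x) y (rns hz h) : Pt (E1 D) L) =
          -(pp (algebraMap K L z * (algebraMap K L z * x)) y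
            (rns hz (rns hz h)) : Pt (E1 D) L) := by
        rw [e1, neg_pp]
        exact pp_ext _ _ (by linear_combination -x * h4) (by ring)
      rw [e2, neg_add_cancel]

/-- `φ² = -3` -/
lemma ph_ph (hD : D ≠ 0) (hz : z ^ 2 + z + 1 = 0) (P : Pt (E1 D) L) :
    ph hz (ph hz P) = -(3 • P) := by
  have h1 := nrm hD hz P
  rw [ph_apply, ph_apply, map_add, map_nsmul]
  have h2 : rh hz (rh hz P) = -P - rh hz P := by
    rw [← sub_eq_zero, ← h1]
    abel
  rw [h2]
  abel

lemma ph_0 (hD : D ≠ 0) (hz : z ^ 2 + z + 1 = 0) {y : L}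
    (h : ((E1 D).baseChange L).toAffine.Nonsingular 0 y) :
    ph hz (pp 0 y h : Pt (E1 D) L) = 0 := by
  rw [ph_apply, rh_pp]
  have e1 : (pp (algebraMap K L z * 0) y (rns hz h) : Pt (E1 D) L) =
      pp 0 y h := pp_ext _ _ (mul_zero _) rfl
  rw [e1, two_nsmul, dbl0 hD h, add_neg_cancel]

/-- the formula -/
lemma ph_some (hD : D ≠ 0) (hz : z ^ 2 + z + 1 = 0) {x y : L}
    (h : ((E1 D).baseChange L).toAffine.Nonsingular x y) (hx : x ≠ 0) :
    ∃ Y h', ph hz (pp x y h : Pt (E1 D) L) =
      pp (-(x ^ 3 + (algebraMap K L D) ^ 2) / (3 * x ^ 2)) Y h' := by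
  have := ch K L
  have h0 := nrm hD hz (pp x y h : Pt (E1 D) L)
  have e0 : ph hz (pp x y h : Pt (E1 D) L) =
      rh hz (pp x y h : Pt (E1 D) L) +
      -(rh hz (rh hz (pp x y h : Pt (E1 D) L))) := by
    rw [ph_apply, ← sub_eq_zero, ← h0]
    abel
  have h4 := zz (L := L) hz
  have hzne := z_ne (L := L) hz
  have hz1 := z_ne1 (L := L) hz
  have hne : algebraMap K L z * x ≠ algebraMap K L z * (algebraMap K L z * x) := by
    intro e
    have h1 := mul_left_cancel₀ hzne e
    have h2 : (algebraMap K L z - 1) * x = 0 := by linear_combination -h1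
    rcases mul_eq_zero.1 h2 with h3 | h3
    · exact hz1 (sub_eq_zero.1 h3)
    · exact hx h3
  rw [e0, rh_pp, rh_pp, neg_pp]
  obtain ⟨h', e1⟩ := add_pp (rns hz h) (nns (rns hz (rns hz h))) (fun hh => hne hh.1) rfl
  have hq := (eqn _ _).1 h.1
  have hX : (((E1 D).baseChange L).toAffine.slope (algebraMap K L z * x)
      (algebraMap K L z * (algebraMap K L z * x)) y (-y - algebraMap K L D)) ^ 2 -
      algebraMap K L z * x - algebraMap K L z * (algebraMap K L z * x) =
      -(x ^ 3 + (algebraMap K L D) ^ 2) / (3 * x ^ 2) := by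
    rw [Affine.slope_of_X_ne hne]
    have h5 : algebraMap K L z * x - algebraMap K L z * (algebraMap K L z * x) ≠ 0 :=
      sub_ne_zero.2 hne
    have h6 : (algebraMap K L z * x - algebraMap K L z * (algebraMap K L z * x)) ^ 2 =
        -3 * x ^ 2 := by
      linear_combination (x ^ 2 * ((algebraMap K L z) ^ 2 - 3 * algebraMap K L z + 3)) * h4
    rw [div_pow, h6]
    field_simp
    linear_combination (-4) * hq - 3 * x ^ 3 * h4
  have h'' := h'
  rw [hX] at h''
  refine ⟨_, h'', e1.trans (pp_ext _ _ hX ?_)⟩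
  rw [hX]

end more

section ker
variable {K : Type} [Field K] [CharZero K] {D z : K} {L : Type} [Field L] [Algebra K L]

/-- the kernel -/
lemma ph_ker (hD : D ≠ 0) (hz : z ^ 2 + z + 1 = 0) (P : Pt (E1 D) L) :
    ph hz P = 0 ↔ P = 0 ∨ ∃ y h, P = pp 0 y h := by
  constructor
  · intro h
    rcases pp_cases P with rfl | ⟨x, y, h', rfl⟩
    · exact Or.inl rfl
    · by_cases hx : x = 0
      · subst hx
        exact Or.inr ⟨y, h', rfl⟩
      · obtain ⟨Y, h'', e⟩ := ph_some hD hz h' hx
        rw [e] at h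
        exact absurd h (pp_ne _)
  · rintro (rfl | ⟨y, h, rfl⟩)
    · exact map_zero _
    · exact ph_0 hD hz h

/-- the first coordinate of a point with image in the kernel -/
lemma ph_ker2 (hD : D ≠ 0) (hz : z ^ 2 + z + 1 = 0) (P : Pt (E1 D) L)
    (h1 : ph hz P ≠ 0) (h2 : ph hz (ph hz P) = 0) :
    ∃ x y h, P = pp x y h ∧ x ^ 3 = -(algebraMap K L D) ^ 2 := by
  have := ch K L
  rcases pp_cases P with rfl | ⟨x, y, h, rfl⟩
  · exact absurd (map_zero _) h1
  · refine ⟨x, y, h, rfl, ?_⟩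
    have hx : x ≠ 0 := by
      rintro rfl
      exact h1 (ph_0 hD hz h)
    obtain ⟨Y, h', e⟩ := ph_some hD hz h hx
    rw [e] at h2
    rcases (ph_ker hD hz _).1 h2 with h3 | ⟨y', h'', h3⟩
    · exact absurd h3 (pp_ne _)
    · have h4 := (pp_inj h3).1
      rw [div_eq_zero_iff] at h4
      rcases h4 with h4 | h4
      · linear_combination -h4
      · exact absurd h4 (mul_ne_zero three_ne_zero (pow_ne_zero 2 hx))

/-- equations and nonsingular points -/
lemma ns_of (hD : D ≠ 0) {x y : L} (h : y ^ 2 + algebraMap K L D * y = x ^ 3) :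
    ((E1 D).baseChange L).toAffine.Nonsingular x y := by
  have := ch K L
  have hD' : algebraMap K L D ≠ 0 := fun e => hD ((map_eq_zero _).1 e)
  rw [Affine.nonsingular_iff]
  refine ⟨(eqn _ _).2 h, ?_⟩
  have a1 : ((E1 D).baseChange L).toAffine.a₁ = 0 := map_zero (algebraMap K L)
  have a2 : ((E1 D).baseChange L).toAffine.a₂ = 0 := map_zero (algebraMap K L)
  have a3 : ((E1 D).baseChange L).toAffine.a₃ = algebraMap K L D := rfl
  have a4 : ((E1 D).baseChange L).toAffine.a₄ = 0 := map_zero (algebraMap K L)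
  rw [a1, a2, a3, a4]
  by_cases hx : x = 0
  · right
    subst hx
    intro e
    have h2 : (algebraMap K L D) ^ 2 = 0 := by
      linear_combination (2 * y + algebraMap K L D) * e - 4 * h
    exact hD' (pow_eq_zero_iff two_ne_zero |>.1 h2)
  · left
    intro e
    have h3 : 3 * x ^ 2 = 0 := by linear_combination -e
    exact (mul_ne_zero three_ne_zero (pow_ne_zero 2 hx)) h3

/-- the endomorphism is surjective over an algebraically closed field -/
lemma ph_surj [IsAlgClosed L] (hD : D ≠ 0) (hz : z ^ 2 + z + 1 = 0) (P : Pt (E1 D) L) :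
    ∃ Q, ph hz Q = P := by
  have := ch K L
  have hD' : algebraMap K L D ≠ 0 := fun e => hD ((map_eq_zero _).1 e)
  rcases pp_cases P with rfl | ⟨X, Y, hP, rfl⟩
  · exact ⟨0, map_zero _⟩
  · obtain ⟨x, hx⟩ : ∃ x : L, x ^ 3 + 3 * X * x ^ 2 + (algebraMap K L D) ^ 2 = 0 := by
      have hdeg : (Polynomial.X ^ 3 + Polynomial.C (3 * X) * Polynomial.X ^ 2 +
          Polynomial.C ((algebraMap K L D) ^ 2) : Polynomial L).degree ≠ 0 := by
        have : (Polynomial.X ^ 3 + Polynomial.C (3 * X) * Polynomial.X ^ 2 +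
          Polynomial.C ((algebraMap K L D) ^ 2) : Polynomial L).degree = 3 := by
          compute_degree!
        rw [this]
        decide
      obtain ⟨x, hx⟩ := IsAlgClosed.exists_root _ hdeg
      refine ⟨x, ?_⟩
      simpa [Polynomial.IsRoot] using hx
    have hx0 : x ≠ 0 := by
      rintro rfl
      apply hD'
      apply pow_eq_zero_iff two_ne_zero |>.1
      linear_combination hx
    obtain ⟨y, hy⟩ : ∃ y : L, y ^ 2 + algebraMap K L D * y = x ^ 3 := by
      have hdeg : (Polynomial.X ^ 2 + Polynomial.C (algebraMap K L D) * Polynomial.X +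
          Polynomial.C (-x ^ 3) : Polynomial L).degree ≠ 0 := by
        have : (Polynomial.X ^ 2 + Polynomial.C (algebraMap K L D) * Polynomial.X +
          Polynomial.C (-x ^ 3) : Polynomial L).degree = 2 := by
          compute_degree!
        rw [this]
        decide
      obtain ⟨y, hy⟩ := IsAlgClosed.exists_root _ hdeg
      refine ⟨y, ?_⟩
      have h2 : y ^ 2 + algebraMap K L D * y + -x ^ 3 = 0 := by
        simpa [Polynomial.IsRoot] using hy
      linear_combination h2
    have hn := ns_of (L := L) hD hy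
    obtain ⟨Y', h', e⟩ := ph_some hD hz hn hx0
    have hX : -(x ^ 3 + (algebraMap K L D) ^ 2) / (3 * x ^ 2) = X := by
      rw [div_eq_iff (mul_ne_zero three_ne_zero (pow_ne_zero 2 hx0))]
      linear_combination -hx
    have e1 := (eqn _ _).1 hP.1
    have e2 := (eqn _ _).1 h'.1
    rw [hX] at e2
    have e3 : (Y - Y') * (Y + Y' + algebraMap K L D) = 0 := by linear_combination e1 - e2
    rcases mul_eq_zero.1 e3 with e4 | e4
    · refine ⟨pp x y hn, e.trans (pp_ext _ _ hX ?_)⟩
      linear_combination -e4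
    · refine ⟨-pp x y hn, ?_⟩
      rw [map_neg, e, neg_pp]
      refine pp_ext _ _ hX ?_
      linear_combination -e4

/-- the endomorphism and homomorphisms of fields -/
lemma act_rh (hz : z ^ 2 + z + 1 = 0) {F : Type} [Field F] [Algebra K F] (ψ : F →ₐ[K] L)
    (P : Pt (E1 D) F) : act (E1 D) ψ (rh hz P) = rh hz (act (E1 D) ψ P) := by
  rcases pp_cases P with rfl | ⟨x, y, h, rfl⟩
  · rw [map_zero, map_zero, map_zero]
  · rw [rh_pp]
    obtain ⟨h1, e1⟩ : ∃ h1, act (E1 D) ψ (pp x y h) = pp (ψ x) (ψ y) h1 := ⟨_, rfl⟩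
    obtain ⟨h2, e2⟩ : ∃ h2, act (E1 D) ψ (pp (algebraMap K F z * x) y (rns hz h)) =
      pp (ψ (algebraMap K F z * x)) (ψ y) h2 := ⟨_, rfl⟩
    rw [e1, e2, rh_pp]
    exact pp_ext _ _ (by rw [map_mul, AlgHom.commutes]) rfl

lemma act_ph (hz : z ^ 2 + z + 1 = 0) {F : Type} [Field F] [Algebra K F] (ψ : F →ₐ[K] L)
    (P : Pt (E1 D) F) : act (E1 D) ψ (ph hz P) = ph hz (act (E1 D) ψ P) := by
  rw [ph_apply, ph_apply, map_add, map_nsmul, act_rh]

lemma act_pp {F : Type} [Field F] [Algebra K F] (ψ : F →ₐ[K] L) {x y : F}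
    (h : ((E1 D).baseChange F).toAffine.Nonsingular x y) :
    ∃ h', act (E1 D) ψ (pp x y h) = pp (ψ x) (ψ y) h' := ⟨_, rfl⟩

lemma act_act {F F' : Type} [Field F] [Algebra K F] [Field F'] [Algebra K F'] (ψ : F →ₐ[K] L)
    (ψ' : F' →ₐ[K] F) (P : Pt (E1 D) F') :
    act (E1 D) ψ (act (E1 D) ψ' P) = act (E1 D) (ψ.comp ψ') P := by
  rcases pp_cases P with rfl | ⟨x, y, h, rfl⟩
  · rw [map_zero, map_zero, map_zero]
  · rfl

end ker

end Pool.Agent.Y703.XL.Inf
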