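import Mathlib
import Pool.Agent.Y703.XL.InfB
import Pool.Agent.Y696.XL.Res

/-!
# The law of the kernel of `√-3` on the `3^∞`-Selmer groups
-/

set_option autoImplicit false
set_option linter.unusedVariables false

open scoped Classical

namespace Pool.Agent.Y703.XL.Inf

open WeierstrassCurve NumberField
open Pool.Agent.Y696.CTK (ClsK ED)
open Pool.Agent.XL6 (SelK prob finalXL)

theorem not_cube {K : Type} [Field K] [NumberField K] [IsCyclotomicExtension {3} ℚ K] {D : 𝓞 K}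
    (hD : ClsK D) (t : K) : t ^ 3 ≠ (D : K) := by
  intro h
  have ht : IsIntegral ℤ t := by
    apply IsIntegral.of_pow (n := 3) (by norm_num)
    rw [h]
    exact RingOfIntegers.isIntegral_coe D
  obtain ⟨s, rfl⟩ : ∃ s : 𝓞 K, (s : K) = t := ⟨⟨t, ht⟩, rfl⟩
  have h1 : s ^ 3 = D := by
    apply RingOfIntegers.coe_injective
    rw [map_pow]
    exact h
  obtain ⟨⟨j, hj⟩, -⟩ := Pool.Agent.Y455.CTK.jex K
  have h2 : s * s ∣ D := ⟨s, by rw [← h1]; ring⟩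
  have h3 : IsUnit s := hD.2.1 s h2
  obtain ⟨z, rfl⟩ := j.surjective s
  have h4 : IsUnit z := (MulEquiv.isUnit_map j).1 h3
  have h5 := Pool.Agent.Y692.QS.isUnit_iff.1 h4
  apply hD.2.2
  rw [← h1, map_pow, hj, h5]
  norm_num

theorem ne_zero {K : Type} [Field K] [NumberField K] {D : 𝓞 K} (hD : ClsK D) : (D : K) ≠ 0 := by
  intro h
  have h1 : D = 0 := by
    apply RingOfIntegers.coe_injective
    rw [map_zero]
    exact h
  have h2 := hD.2.1.ne_zero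
  exact h2 h1

theorem finalInf (K : Type) [Field K] [NumberField K] [IsCyclotomicExtension {3} ℚ K] (ω : K)
    (hω : ω ^ 2 + ω + 1 = 0) :
    (∃ c : ℝ, 0 < c ∧ ∃ X₀ : ℕ, ∀ X : ℕ, X₀ ≤ X →
      c * X ≤ ({D : 𝓞 K | Algebra.norm ℤ D ≤ X ∧ ClsK D}.ncard : ℝ)) ∧
    (∀ D : 𝓞 K, ClsK D →
      (∃ r : ℕ, (killed ω (D : K)).ncard = 3 ^ r ∧
        Module.finrank ℤ (ED (D : K)).toAffine.Point ≤ 2 * r) ∧
      ((killed ω (D : K)).ncard = 1 ↔ ∀ x : SelInf (D : K), x = 0)) ∧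
    (∀ r : ℕ, Filter.Tendsto (fun X : ℕ =>
      ({D : 𝓞 K | Algebra.norm ℤ D ≤ X ∧ ClsK D ∧ (killed ω (D : K)).ncard = 3 ^ r}.ncard : ℝ) /
        ({D : 𝓞 K | Algebra.norm ℤ D ≤ X ∧ ClsK D}.ncard : ℝ)) Filter.atTop (nhds (prob r))) ∧
    Filter.Tendsto (fun X : ℕ =>
      ({D : 𝓞 K | Algebra.norm ℤ D ≤ X ∧ ClsK D ∧ ∀ x : SelInf (D : K), x = 0}.ncard : ℝ) /
        ({D : 𝓞 K | Algebra.norm ℤ D ≤ X ∧ ClsK D}.ncard : ℝ)) Filter.atTop (nhds (prob 0)) ∧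
    (0.639 < prob 0 ∧ prob 0 < 0.6391 ∧ HasSum prob 1) ∧
    Filter.Tendsto (fun X : ℕ =>
      (∑ᶠ D ∈ {D : 𝓞 K | Algebra.norm ℤ D ≤ X ∧ ClsK D}, ((killed ω (D : K)).ncard : ℝ)) /
        ({D : 𝓞 K | Algebra.norm ℤ D ≤ X ∧ ClsK D}.ncard : ℝ)) Filter.atTop (nhds 2) := by
  obtain ⟨h1, h2, h3, h4, h5, -⟩ := finalXL K
  have key : ∀ D : 𝓞 K, ClsK D → (SelK (D : K)).ncard = 3 * (killed ω (D : K)).ncard :=
    fun D hD => sel_card (ne_zero hD) hω (not_cube hD)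
  have key2 : ∀ D : 𝓞 K, ClsK D → ∀ r : ℕ,
      ((SelK (D : K)).ncard = 3 ^ (r + 1) ↔ (killed ω (D : K)).ncard = 3 ^ r) := by
    intro D hD r
    rw [key D hD, pow_succ']
    constructor
    · intro h
      exact Nat.eq_of_mul_eq_mul_left (by norm_num) h
    · intro h
      rw [h]
  have hlaw : ∀ r : ℕ, Filter.Tendsto (fun X : ℕ =>
      ({D : 𝓞 K | Algebra.norm ℤ D ≤ X ∧ ClsK D ∧ (killed ω (D : K)).ncard = 3 ^ r}.ncard : ℝ) /
        ({D : 𝓞 K | Algebra.norm ℤ D ≤ X ∧ ClsK D}.ncard : ℝ)) Filter.atTop (nhds (prob r)) := by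
    intro r
    refine (h3 r).congr fun X => ?_
    have e1 : {D : 𝓞 K | Algebra.norm ℤ D ≤ X ∧ ClsK D ∧ (SelK (D : K)).ncard = 3 ^ (r + 1)} =
        {D : 𝓞 K | Algebra.norm ℤ D ≤ X ∧ ClsK D ∧ (killed ω (D : K)).ncard = 3 ^ r} := by
      ext D
      exact and_congr_right fun _ => and_congr_right fun hD => key2 D hD r
    rw [e1]
  refine ⟨h1, fun D hD => ⟨?_, sel_triv (ne_zero hD) hω⟩, hlaw, ?_, h4, ?_⟩
  · obtain ⟨-, ⟨r, hr, hr'⟩, -⟩ := h2 D hD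
    exact ⟨r, (key2 D hD r).1 hr, hr'⟩
  · refine (hlaw 0).congr fun X => ?_
    have e1 : {D : 𝓞 K | Algebra.norm ℤ D ≤ X ∧ ClsK D ∧ (killed ω (D : K)).ncard = 3 ^ 0} =
        {D : 𝓞 K | Algebra.norm ℤ D ≤ X ∧ ClsK D ∧ ∀ x : SelInf (D : K), x = 0} := by
      ext D
      refine and_congr_right fun _ => and_congr_right fun hD => ?_
      rw [pow_zero]
      exact sel_triv (ne_zero hD) hω
    rw [e1]
  · have e6 : (2 : ℝ) = 6 / 3 := by norm_num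
    rw [e6]
    refine (h5.div_const 3).congr fun X => ?_
    have e1 : ∑ᶠ D ∈ {D : 𝓞 K | Algebra.norm ℤ D ≤ X ∧ ClsK D}, ((SelK (D : K)).ncard : ℝ) =
        3 * ∑ᶠ D ∈ {D : 𝓞 K | Algebra.norm ℤ D ≤ X ∧ ClsK D}, ((killed ω (D : K)).ncard : ℝ) := by
      rw [mul_finsum_mem]
      refine finsum_mem_congr rfl fun D hD => ?_
      rw [key D hD.2]
      push_cast
      ring
    rw [e1]
    ring

end Pool.Agent.Y703.XL.Inf
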