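import Pool.Agent.Y703.XK.Stm
import Pool.Agent.Y85.XK.Abs

/-!
# Project XL (helper703): the exact law of the Selmer groups of the cubic twists over `ℚ(ω)`

`D` runs over the squarefree primary elements of `ℤ[ω]` whose norm is not `1` modulo `9`. The kernel
of the Laplacian of the symmetric matrix of the cubic residue symbols of the prime divisors has
`3 ^ (r + 1)` elements for exactly the proportion
`c9 / ((3 - 1) (9 - 1) ⋯ (3 ^ r - 1))` of these `D`. Statements of the parts; they are the statements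
of the project XK (`Pool/Agent/Y703/XK/Stm.lean`) with `Gd` replaced by `Gr r`.
-/

set_option autoImplicit false
set_option linter.unusedVariables false

open scoped Classical

namespace Pool.Agent.Y703.XL

open Finset
open Pool.Agent.Y692.QS (Ei w nr toC)
open Pool.Agent.Y715.T.Rec (cs)
open Pool.Agent.Y715.T.RecG (Pq)
open Pool.Agent.Y699.E (ez nrm QB)
open Pool.Agent.Y703.CT (ClsE ppr)
open Pool.Agent.Y703.CX (jj XX eL zz kk)
open Pool.Agent.Y703.XK (Nd SS RR HB prs ext c9 sm la bl S_BIL S_EQ)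
open Pool.Agent.Y759.CX (fr)
open Pool.Agent.Y85.XK (Sy Gs)

/-- the number of the solutions of the Laplacian system of a set -/
noncomputable def nS (S : Finset Ei) : ℕ :=
  Nat.card {v : S → ZMod 3 // ∀ π : S, ∑ ρ : S, cs π ρ * (v ρ - v π) = 0}

/-- the sets whose solution space has dimension `r + 1` -/
def Gr (r : ℕ) (S : Finset Ei) : Prop := nS S = 3 ^ (r + 1)

/-- the limits `c9 / ((3 - 1) (9 - 1) ⋯ (3 ^ r - 1))` -/
noncomputable def cr (r : ℕ) : ℝ := c9 / ∏ i ∈ range r, ((3 : ℝ) ^ (i + 1) - 1)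

/-- the law for the sets -/
def S_DQ : Prop := ∀ r : ℕ, Filter.Tendsto
  (fun X : ℕ => (((SS X).filter (Gr r)).card : ℝ) / ((SS X).card : ℝ)) Filter.atTop (nhds (cr r))

/-- FINAL: the law in terms of the elements `D`; `ppr D` is the set of the primary primes dividing
`D`. -/
def S_LAW : Prop := ∀ r : ℕ, Filter.Tendsto
  (fun X : ℕ => ({D : Ei | nr D ≤ X ∧ ClsE D ∧ nS (ppr D) = 3 ^ (r + 1)}.ncard : ℝ) /
    ({D : Ei | nr D ≤ X ∧ ClsE D}.ncard : ℝ)) Filter.atTop (nhds (cr r))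

/-- the number of the solutions of the block system -/
noncomputable def nA {U J : Type} [Fintype U] [Fintype J] (A : U → U → ZMod 3)
    (B : U → J → ZMod 3) (R : J → J → ZMod 3) : ℕ :=
  Nat.card {p : (U → ZMod 3) × (J → ZMod 3) //
    (∀ u, ∑ v, A u v * (p.1 v - p.1 u) + ∑ l, B u l * (p.2 l - p.1 u) = 0) ∧
    (∀ k, ∑ u, B u k * (p.1 u - p.2 k) + ∑ l, R k l * (p.2 l - p.2 k) = 0)}

/-- XL-LA: the probability that a random symmetric completion has `3 ^ (r + 1)` solutions. -/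
def S_LA : Prop := ∀ (r : ℕ) (U J : Type) [Fintype U] [Fintype J] [LinearOrder J]
  (A : U → U → ZMod 3) (B : U → J → ZMod 3), Fintype.card U < Fintype.card J →
  (∀ u v, A u v = A v u) →
  (∀ w : U → ZMod 3, (∃ u, w u ≠ 0) → ∃ k, ∑ u, w u * B u k ≠ 0) →
  |((univ.filter fun α : prs J → ZMod 3 => nA A B (ext α) = 3 ^ (r + 1)).card : ℝ) /
      3 ^ (prs J).card - cr r| ≤ 3 ^ (r + 1) * (3 ^ Fintype.card U / 3 ^ Fintype.card J)

/-- the number of the elements of the radical of a form -/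
noncomputable def nR {V : Type} [AddCommGroup V] [Module (ZMod 3) V] (S : Sy V) : ℕ :=
  Nat.card {x : V // ∀ y, S.1 x y = 0}

/-- XL-REC: the number of the symmetric forms with a radical of given dimension. (Count the pairs of
a form and a nonzero vector `x` of its radical: these are the forms on `V / x`.) -/
def S_REC : Prop := ∀ (V W : Type) [AddCommGroup V] [Module (ZMod 3) V] [Finite V]
  [AddCommGroup W] [Module (ZMod 3) W] [Finite W] (r : ℕ),
  Module.finrank (ZMod 3) V = Module.finrank (ZMod 3) W + 1 →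
  ((3 : ℝ) ^ (r + 1) - 1) * fr (fun S : Sy V => nR S = 3 ^ (r + 1)) =
    (1 - (1 / 3 : ℝ) ^ Module.finrank (ZMod 3) V) * fr (fun S : Sy W => nR S = 3 ^ r)

/-- XL-LIM: the probability that the radical has dimension `r`. -/
def S_LIM : Prop := ∀ (V : Type) [AddCommGroup V] [Module (ZMod 3) V] [Finite V] (r : ℕ),
  |fr (fun S : Sy V => nR S = 3 ^ r) - cr r| ≤ 3 ^ r * (1 / 3) ^ Module.finrank (ZMod 3) V

/-- the number of the solutions of the abstract block system -/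
noncomputable def nG {V X : Type} [AddCommGroup V] [Module (ZMod 3) V]
    [AddCommGroup X] [Module (ZMod 3) X] (A : X →ₗ[ZMod 3] X →ₗ[ZMod 3] ZMod 3)
    (c : X →ₗ[ZMod 3] V →ₗ[ZMod 3] ZMod 3) (S : V →ₗ[ZMod 3] V →ₗ[ZMod 3] ZMod 3) : ℕ :=
  Nat.card {p : X × V // (∀ x', A p.1 x' + c x' p.2 = 0) ∧ ∀ y', c p.1 y' + S p.2 y' = 0}

/-- XL-ABS: the abstract block system (compare `Pool.Agent.Y85.XK.fr_Gs`). -/
def S_ABS : Prop := ∀ (V X : Type) [AddCommGroup V] [Module (ZMod 3) V] [Finite V]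
  [AddCommGroup X] [Module (ZMod 3) X] [Finite X]
  (A : X →ₗ[ZMod 3] X →ₗ[ZMod 3] ZMod 3) (c : X →ₗ[ZMod 3] V →ₗ[ZMod 3] ZMod 3),
  (∀ x y, A x y = A y x) → (∀ x, (∀ y, c x y = 0) → x = 0) →
  ∃ Z : Submodule (ZMod 3) V,
    Module.finrank (ZMod 3) V ≤ Module.finrank (ZMod 3) Z + Module.finrank (ZMod 3) X ∧
    ∀ n : ℕ, fr (fun S : Sy V => nG A c S.1 = n) = fr (fun T : Sy Z => nR T = n)

/-- the count in a box for a property `P` with the constants `c`, `K` -/
def BoxG (P : Finset Ei → Prop) (c K : ℝ) : Prop := ∀ (ι : Type) [Fintype ι] [LinearOrder ι]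
  (C : ι → Finset Ei) (X : ι → ℕ) (κ : ℝ) (S₀ : Finset Ei), 0 ≤ κ → (∀ i, (C i).card ≤ X i) →
  HB C X κ → (∀ u ∈ S₀, Pq u) → (∀ i, ∀ π ∈ C i, Pq π ∧ π ∉ S₀) →
  (∀ i l, i ≠ l → Disjoint (C i) (C l)) → S₀.card < Fintype.card ι →
  |(((Fintype.piFinset C).filter fun p => Nd S₀ (univ.image p) ∧ P (S₀ ∪ univ.image p)).card : ℝ) -
      c * (((Fintype.piFinset C).filter fun p => Nd S₀ (univ.image p)).card : ℝ)| ≤
    K * (3 ^ S₀.card / 3 ^ Fintype.card ι) *
      (((Fintype.piFinset C).filter fun p => Nd S₀ (univ.image p)).card : ℝ) +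
    3 ^ (S₀.card * Fintype.card ι + (prs ι).card) * (κ * ∏ j, (X j : ℝ))

/-- XL-BOX: the count in a box (compare `Pool.Agent.Y688.XK.t_BOX`). -/
def S_BOX : Prop := S_EQ → S_LA → ∀ r : ℕ, BoxG (Gr r) (cr r) (3 ^ (r + 1))

/-- XL-KEY: the sum over the boxes (compare `Pool.Agent.Y697.XK.t_KEY`). -/
def S_KEY : Prop := S_BIL → ∃ C : ℝ, 1 ≤ C ∧ ∀ (P : Finset Ei → Prop) (c K : ℝ),
  0 ≤ K → BoxG P c K →
  ∀ (X z H k V N : ℕ) (κ : ℝ), 1 ≤ X → 1 ≤ H → 1 ≤ z → 0 ≤ κ → C ≤ κ ^ 24 * z →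
  (H : ℝ) * Real.log X < N →
  |(((RR X z H k V).filter fun S => Nd (sm z S) (la z S) ∧ P S).card : ℝ) -
      c * (((RR X z H k V).filter fun S => Nd (sm z S) (la z S)).card : ℝ)| ≤
    K * (1 / 3 : ℝ) ^ V * ((RR X z H k V).card : ℝ) +
    (9 * N + 9 : ℝ) ^ k * (3 ^ (9 * k ^ 2 + 9) * κ) * (X * (1 + Real.log X))

end Pool.Agent.Y703.XL
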