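import Pool.Agent.Y703.XL.Stm
import Pool.Agent.Y703.XK.Asy
import Pool.Agent.Y550.XK.NS
import Pool.Agent.Y696.XL.Key

/-!
# Project XL: the final asymptotics
-/

set_option autoImplicit false

open scoped Classical
open Finset Filter

namespace Pool.Agent.Y703.XL

open Pool.Agent.Y692.QS (Ei w nr toC)
open Pool.Agent.Y715.T.RecG (Pq)
open Pool.Agent.Y699.E (nrm QB PD)
open Pool.Agent.Y703.CT (ClsE ppr)
open Pool.Agent.Y703.CX (jj XX eL zz kk eL_tendsto logX_eq rpow_eL HH NN ev_eL one_le_exp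
  HH_ge HH_le HH_pos kk_ge kk_le X_pos one_add_log lin_le zz_ge zz_pos)
open Pool.Agent.Y703.CQ (Sml sml_of sml_add)
open Pool.Agent.Y703.XK (Nd SS RR HB prs ext c9 sm la bl S_BIL S_EQ S_CNT S_BAD S_FEW S_LOW S_C9
  sml_eps sml_many sml_cut sml_coll sml_main kap kap_nonneg kap_pow out_sub cmp)

theorem fac_pos (i : ℕ) : (1 : ℝ) ≤ (3 : ℝ) ^ (i + 1) - 1 := by
  have h : (3 : ℝ) ^ 1 ≤ 3 ^ (i + 1) := pow_le_pow_right₀ (by norm_num) (by omega)
  linarith

theorem prod_pos' (r : ℕ) : (1 : ℝ) ≤ ∏ i ∈ range r, ((3 : ℝ) ^ (i + 1) - 1) := by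
  induction r with
  | zero => simp
  | succ r ih =>
    rw [prod_range_succ]
    have := fac_pos r
    nlinarith

theorem cr_pos (hc9 : S_C9) (r : ℕ) : 0 < cr r := by
  unfold cr
  exact div_pos hc9.2.1 (lt_of_lt_of_le one_pos (prod_pos' r))

theorem cr_le (hc9 : S_C9) (r : ℕ) : cr r ≤ 1 := by
  unfold cr
  rw [div_le_one (lt_of_lt_of_le one_pos (prod_pos' r))]
  exact hc9.2.2.1.le.trans (prod_pos' r)

theorem t_DQ (hK : ∀ r : ℕ, Pool.Agent.XLK.KEG (Gr r) (cr r) (3 ^ (r + 1))) (hC : S_CNT) (hB : S_BAD) (hF : S_FEW) (hLo : S_LOW) (hc9 : S_C9) : S_DQ := by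
  intro r
  obtain ⟨C, hC1, hkey⟩ := hK r
  obtain ⟨D, hD⟩ := hC
  obtain ⟨c, X₀, hc, hlow⟩ := hLo
  rw [Metric.tendsto_nhds]
  intro ε hε
  obtain ⟨K, hKd⟩ : ∃ K : ℝ, K = 3 ^ (r + 1) := ⟨_, rfl⟩
  have hKp : 0 < K := by rw [hKd]; positivity
  obtain ⟨V, hV⟩ := exists_pow_lt_of_lt_one (show (0 : ℝ) < ε / (2 * K) by positivity)
    (show (1 / 3 : ℝ) < 1 by norm_num)
  have s1 := sml_many hD
  have s2 := sml_cut hD
  have s3 := sml_coll hD
  have s4 := sml_eps (hF V)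
  have s5 := sml_eps hB
  have s6 := sml_main hC1
  have s := sml_add (sml_add (sml_add (sml_add (sml_add s1 s2) s3) s4) s5) s6
  have hδ : (0 : ℝ) < c * ε / 4 := by positivity
  filter_upwards [s (c * ε / 4) hδ, ev_eL 1, eventually_ge_atTop X₀] with X hX hl hX0
  rw [neg_zero, zero_mul, Real.exp_zero, mul_one] at hX
  have hl0 : 0 < eL X := by linarith
  have hlo := hlow X hX0
  have hXp := X_pos hl0
  have hXp' : (0 : ℝ) < X := by exact_mod_cast hXp
  have hSpos : (0 : ℝ) < ((SS X).card : ℝ) := by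
    refine lt_of_lt_of_le ?_ hlo
    positivity
  have hN : (HH X : ℝ) * Real.log X < NN X := by
    unfold NN
    push_cast
    exact Nat.lt_floor_add_one _
  have hmain := hkey X (zz X) (HH X) (kk X) V (NN X) (kap C X) hXp (HH_pos hl0) (zz_pos hl)
    (kap_nonneg hC1 X) (kap_pow hC1 hl) hN
  set T := (RR X (zz X) (HH X) (kk X) V).filter fun S => Nd (sm (zz X) S) (la (zz X) S) with hT
  have hTG : (RR X (zz X) (HH X) (kk X) V).filter
      (fun S => Nd (sm (zz X) S) (la (zz X) S) ∧ Gr r S) = T.filter (Gr r) := by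
    rw [hT, filter_filter]
  rw [hTG] at hmain
  have hTS : T ⊆ SS X := (filter_subset _ _).trans (filter_subset _ _)
  have hRS : ((RR X (zz X) (HH X) (kk X) V).card : ℝ) ≤ ((SS X).card : ℝ) := by
    exact_mod_cast card_le_card (filter_subset _ _)
  have hcmp := cmp (Gr r) T (SS X) hTS (cr r) (cr_pos hc9 r).le (cr_le hc9 r)
  have hout : ((SS X \ T).card : ℝ) ≤
      ((((SS X).filter fun S => kk X < S.card).card : ℝ) +
      (((SS X).filter fun S => S.card ≤ kk X ∧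
        X < (∏ π ∈ sm (zz X) S, nrm π) * ∏ π ∈ la (zz X) S, XX (HH X) (bl (HH X) π)).card : ℝ) +
      (((SS X).filter fun S => ¬ Set.InjOn (bl (HH X)) (la (zz X) S : Set Ei)).card : ℝ) +
      (((SS X).filter fun S => S.card ≤ kk X ∧
        (la (zz X) S).card ≤ (sm (zz X) S).card + V).card : ℝ)) +
      (((SS X).filter fun S => S.card ≤ kk X ∧ ¬ Nd (sm (zz X) S) (la (zz X) S)).card : ℝ) := by
    have g := card_le_card (out_sub X (zz X) (HH X) (kk X) V)
    rw [← hT] at g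
    have g2 := (g.trans (card_union_le _ _)).trans (Nat.add_le_add_right ((card_union_le _ _).trans
      (Nat.add_le_add_right ((card_union_le _ _).trans
      (Nat.add_le_add_right (card_union_le _ _) _)) _)) _)
    exact_mod_cast g2
  rw [← hKd] at hmain
  have htot : |(((SS X).filter (Gr r)).card : ℝ) - cr r * ((SS X).card : ℝ)| ≤
      K * (1 / 3 : ℝ) ^ V * ((SS X).card : ℝ) + c * ε / 4 * X := by
    have g1 : K * (1 / 3 : ℝ) ^ V * ((RR X (zz X) (HH X) (kk X) V).card : ℝ) ≤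
        K * (1 / 3 : ℝ) ^ V * ((SS X).card : ℝ) := mul_le_mul_of_nonneg_left hRS (by positivity)
    linarith
  rw [Real.dist_eq]
  have e3 : (((SS X).filter (Gr r)).card : ℝ) / ((SS X).card : ℝ) - cr r =
      ((((SS X).filter (Gr r)).card : ℝ) - cr r * ((SS X).card : ℝ)) /
        ((SS X).card : ℝ) := by
    field_simp
  rw [e3, abs_div, abs_of_pos hSpos, div_lt_iff₀ hSpos]
  refine lt_of_le_of_lt htot ?_
  have g2 : c * ε / 4 * X ≤ ε / 4 * ((SS X).card : ℝ) := by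
    calc c * ε / 4 * X = ε / 4 * (c * X) := by ring
      _ ≤ _ := mul_le_mul_of_nonneg_left hlo (by linarith)
  have g3 : K * (1 / 3 : ℝ) ^ V * ((SS X).card : ℝ) ≤ K * (ε / (2 * K)) * ((SS X).card : ℝ) := by
    gcongr
  have g5 : K * (ε / (2 * K)) = ε / 2 := by
    field_simp
  rw [g5] at g3
  have g4 : 0 < ε * ((SS X).card : ℝ) := by positivity
  linarith

theorem t_LAW_of (h : S_DQ) : S_LAW := by
  intro r
  refine (h r).congr fun X => ?_
  rw [Pool.Agent.Y550.XK.NS.card_cls, ← Pool.Agent.Y550.XK.NS.card_eq X (Gr r)]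
  congr 3
  ext D
  constructor
  · rintro ⟨h1, h2, h3⟩
    refine ⟨h1, h2, ?_⟩
    rw [Pool.Agent.Y550.XK.NS.ppr_eq h2.2.1.ne_zero]
    exact h3
  · rintro ⟨h1, h2, h3⟩
    refine ⟨h1, h2, ?_⟩
    rw [Pool.Agent.Y550.XK.NS.ppr_eq h2.2.1.ne_zero] at h3
    exact h3

end Pool.Agent.Y703.XL
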