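import Pool.Agent.Y703.XL.Asy
import Pool.Agent.Y699.E.Fin

/-!
# Project XL: the average order of the kernel and the average of its dimension
-/

set_option autoImplicit false

open scoped Classical
open Finset Filter

namespace Pool.Agent.Y703.XL

open Pool.Agent.Y692.QS (Ei w nr toC)
open Pool.Agent.Y715.T.Rec (cs)
open Pool.Agent.Y699.E (PD SB PS Ph KK tht sum_Ph average' cls_card ppr_eq mem_SB)
open Pool.Agent.Y703.CT (ClsE ppr)
open Pool.Agent.Y703.XK (c9 S_C9)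

theorem nS_KK (n : Ei) : nS (PD n) = KK n := by
  unfold nS KK
  rw [Nat.card_eq_fintype_card, Fintype.card_subtype]
  rfl

theorem mem_cl {X : ℕ} {D : Ei} : D ∈ Pool.Agent.Y699.E.Cl X ↔ nr D ≤ X ∧ ClsE D :=
  Pool.Agent.Y699.E.cls_iff.symm

theorem ppr_cl {X : ℕ} {D : Ei} (h : D ∈ Pool.Agent.Y699.E.Cl X) : ppr D = PD D :=
  ppr_eq (mem_cl.1 h).2.2.1.ne_zero

theorem avg_err : ∀ ε : ℝ, 0 < ε → ∃ X0 : ℕ, ∀ X : ℕ, X0 ≤ X →
    |∑ D ∈ Pool.Agent.Y699.E.Cl X, (nS (ppr D) : ℝ) -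
      6 * ((Pool.Agent.Y699.E.Cl X).card : ℝ)| ≤ ε * X := by
  intro ε hε
  obtain ⟨X0, hX0⟩ := average' ε hε
  refine ⟨X0, fun X hX => ?_⟩
  have h1 := hX0 X hX
  have e1 : ∑ n ∈ SB X, Ph X n * (KK n : ℂ) =
      ((∑ n ∈ Pool.Agent.Y699.E.Cl X, KK n : ℕ) : ℂ) := by
    rw [sum_Ph]
    push_cast
    rfl
  have e2 : ∑ n ∈ SB X, Ph X n = ((Pool.Agent.Y699.E.Cl X).card : ℂ) := by
    have := sum_Ph X (fun _ => 1)
    simp only [mul_one] at this
    rw [this, sum_const, nsmul_eq_mul, mul_one]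
  rw [e1, e2] at h1
  have e3 : ((∑ n ∈ Pool.Agent.Y699.E.Cl X, KK n : ℕ) : ℂ) -
      6 * ((Pool.Agent.Y699.E.Cl X).card : ℂ) =
      (((∑ n ∈ Pool.Agent.Y699.E.Cl X, KK n : ℕ) : ℝ) -
        6 * ((Pool.Agent.Y699.E.Cl X).card : ℝ) : ℝ) := by push_cast; ring
  rw [e3, Complex.norm_real, Real.norm_eq_abs] at h1
  have e4 : ∑ D ∈ Pool.Agent.Y699.E.Cl X, (nS (ppr D) : ℝ) =
      ((∑ n ∈ Pool.Agent.Y699.E.Cl X, KK n : ℕ) : ℝ) := by
    push_cast
    refine sum_congr rfl fun D hD => ?_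
    rw [ppr_cl hD, nS_KK]
  rw [e4]
  exact h1

/-- **The average order of the kernel tends to `6`.** -/
theorem t_AVG : Tendsto (fun X : ℕ => (∑ D ∈ Pool.Agent.Y699.E.Cl X, (nS (ppr D) : ℝ)) /
    ((Pool.Agent.Y699.E.Cl X).card : ℝ)) atTop (nhds 6) := by
  obtain ⟨c, hc, X1, h1⟩ := Pool.Agent.Y145.CT9.cnt9
  rw [Metric.tendsto_nhds]
  intro ε hε
  obtain ⟨X2, h2⟩ := avg_err (c * ε / 2) (by positivity)
  filter_upwards [eventually_ge_atTop X1, eventually_ge_atTop X2, eventually_ge_atTop 1]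
    with X hX1 hX2 hX3
  have h3 := h1 X hX1
  rw [cls_card] at h3
  have h4 := h2 X hX2
  have hXp : (0 : ℝ) < X := by exact_mod_cast hX3
  have hN : (0 : ℝ) < ((Pool.Agent.Y699.E.Cl X).card : ℝ) :=
    lt_of_lt_of_le (by positivity) h3
  rw [Real.dist_eq]
  have e : (∑ D ∈ Pool.Agent.Y699.E.Cl X, (nS (ppr D) : ℝ)) /
      ((Pool.Agent.Y699.E.Cl X).card : ℝ) - 6 =
      (∑ D ∈ Pool.Agent.Y699.E.Cl X, (nS (ppr D) : ℝ) -
        6 * ((Pool.Agent.Y699.E.Cl X).card : ℝ)) / ((Pool.Agent.Y699.E.Cl X).card : ℝ) := by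
    field_simp
  rw [e, abs_div, abs_of_pos hN, div_lt_iff₀ hN]
  refine lt_of_le_of_lt h4 ?_
  have h5 : c * ε / 2 * X = ε / 2 * (c * X) := by ring
  have h6 : ε / 2 * (c * X) ≤ ε / 2 * ((Pool.Agent.Y699.E.Cl X).card : ℝ) :=
    mul_le_mul_of_nonneg_left h3 (by linarith)
  have h7 : 0 < ε * ((Pool.Agent.Y699.E.Cl X).card : ℝ) := by positivity
  linarith

/-- the Laplacian as a linear map -/
noncomputable def LL (S : Finset Ei) : (S → ZMod 3) →ₗ[ZMod 3] (S → ZMod 3) where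
  toFun v := fun π => ∑ ρ : S, cs π ρ * (v ρ - v π)
  map_add' v v' := by
    funext π
    simp only [Pi.add_apply]
    rw [← sum_add_distrib]
    exact sum_congr rfl fun ρ _ => by ring
  map_smul' a v := by
    funext π
    simp only [Pi.smul_apply, smul_eq_mul, RingHom.id_apply]
    rw [mul_sum]
    exact sum_congr rfl fun ρ _ => by ring

theorem nS_pow (S : Finset Ei) : nS S = 3 ^ Module.finrank (ZMod 3) (LinearMap.ker (LL S)) := by
  have h : nS S = Nat.card (LinearMap.ker (LL S)) := by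
    unfold nS
    refine Nat.card_congr (Equiv.subtypeEquivRight fun v => ?_)
    rw [LinearMap.mem_ker]
    exact ⟨fun h => funext h, fun h π => congrFun h π⟩
  rw [h, Module.natCard_eq_pow_finrank (K := ZMod 3), Nat.card_zmod]

/-- the kernel contains the constants -/
theorem nS_succ {S : Finset Ei} (hS : S.Nonempty) : ∃ r : ℕ, nS S = 3 ^ (r + 1) := by
  obtain ⟨π, hπ⟩ := hS
  rw [nS_pow]
  obtain ⟨m, hm⟩ : ∃ m, m = Module.finrank (ZMod 3) (LinearMap.ker (LL S)) := ⟨_, rfl⟩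
  rw [← hm]
  cases m with
  | succ r => exact ⟨r, rfl⟩
  | zero =>
    exfalso
    have h1 : Subsingleton (LinearMap.ker (LL S)) := Module.finrank_zero_iff.1 hm.symm
    have h2 : (fun _ => 1 : S → ZMod 3) ∈ LinearMap.ker (LL S) := by
      rw [LinearMap.mem_ker]
      funext ρ
      show ∑ ρ' : S, cs ρ ρ' * ((1 : ZMod 3) - 1) = 0
      simp
    have h3 := congrArg Subtype.val (Subsingleton.elim
      (⟨_, h2⟩ : LinearMap.ker (LL S)) 0)
    have h4 := congrFun h3 ⟨π, hπ⟩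
    exact one_ne_zero h4

/-- the dimension of the kernel minus one -/
noncomputable def rr (S : Finset Ei) : ℕ := Nat.log 3 (nS S) - 1

theorem rr_of {S : Finset Ei} {r : ℕ} (h : nS S = 3 ^ (r + 1)) : rr S = r := by
  unfold rr
  rw [h, Nat.log_pow (by norm_num)]
  rfl

theorem cl_nonempty {X : ℕ} {D : Ei} (h : D ∈ Pool.Agent.Y699.E.Cl X) : (ppr D).Nonempty := by
  rw [ppr_cl h]
  unfold Pool.Agent.Y699.E.Cl at h
  rw [mem_filter, mem_SB] at h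
  rw [nonempty_iff_ne_empty]
  intro h5
  apply h.2
  have h6 : D = 1 := by rw [← h.1.2.prod, h5, prod_empty]
  rw [h6]
  decide

theorem lin_pow_aux (a n : ℕ) (r : ℕ) (hn : 1 ≤ n) (ha : a ≤ 3 ^ n) (h : n ≤ r) :
    r * a ≤ n * 3 ^ r := by
  induction r, h using Nat.le_induction with
  | base => exact Nat.mul_le_mul_left _ ha
  | succ r hr ih =>
    have h1 : a ≤ 3 ^ r := ha.trans (Nat.pow_le_pow_right (by norm_num) hr)
    have h2 : 1 * 3 ^ r ≤ n * 3 ^ r := Nat.mul_le_mul_right _ hn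
    have h3 : n * 3 ^ (r + 1) = 3 * (n * 3 ^ r) := by ring
    have h4 : (r + 1) * a = r * a + a := by ring
    rw [h3, h4]
    linarith

theorem lin_pow (r : ℕ) (h : 13 ≤ r) : r * 3 ^ 13 ≤ 13 * 3 ^ r :=
  lin_pow_aux (3 ^ 13) 13 r (by norm_num) le_rfl h

theorem pt_le {S : Finset Ei} (hS : S.Nonempty) :
    (rr S : ℝ) ≤ ∑ r ∈ range 13, (r : ℝ) * (if nS S = 3 ^ (r + 1) then 1 else 0) +
      13 / 3 ^ 14 * (nS S : ℝ) := by
  obtain ⟨s, hs⟩ := nS_succ hS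
  rw [rr_of hs]
  have h0 : (0 : ℝ) ≤ 13 / 3 ^ 14 * (nS S : ℝ) := by positivity
  by_cases h : s < 13
  · have h1 : ∑ r ∈ range 13, (r : ℝ) * (if nS S = 3 ^ (r + 1) then 1 else 0) = s := by
      rw [sum_eq_single s]
      · rw [if_pos hs, mul_one]
      · intro r _ hr
        rw [if_neg, mul_zero]
        intro h2
        rw [hs] at h2
        have h3 := Nat.pow_right_injective (show 2 ≤ 3 by norm_num) h2
        omega
      · intro h2
        exact absurd (mem_range.2 h) h2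
    rw [h1]
    linarith
  · have h1 : (0 : ℝ) ≤ ∑ r ∈ range 13, (r : ℝ) * (if nS S = 3 ^ (r + 1) then 1 else 0) := by
      refine sum_nonneg fun r _ => ?_
      split_ifs
      · positivity
      · simp
    have h2 := lin_pow s (by omega)
    have h3 : (s : ℝ) * 3 ^ 13 ≤ 13 * 3 ^ s := by exact_mod_cast h2
    have h4 : (s : ℝ) ≤ 13 / 3 ^ 14 * (nS S : ℝ) := by
      rw [hs]
      push_cast
      rw [div_mul_eq_mul_div, le_div_iff₀ (by positivity)]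
      have e1 : (s : ℝ) * 3 ^ 14 = 3 * (s * 3 ^ 13) := by ring
      have e2 : (13 : ℝ) * 3 ^ (s + 1) = 3 * (13 * 3 ^ s) := by ring
      rw [e1, e2]
      linarith
    linarith

theorem lim_lt (hc9 : S_C9) : ∑ r ∈ range 13, (r : ℝ) * cr r + 13 / 3 ^ 14 * 6 < 0.4045 := by
  have h1 : ∑ r ∈ range 13, (r : ℝ) * cr r =
      c9 * ∑ r ∈ range 13, (r : ℝ) / ∏ i ∈ range r, ((3 : ℝ) ^ (i + 1) - 1) := by
    rw [mul_sum]
    refine sum_congr rfl fun r _ => ?_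
    unfold cr
    ring
  have h2 : ∑ r ∈ range 13, (r : ℝ) / ∏ i ∈ range r, ((3 : ℝ) ^ (i + 1) - 1) < 0.63235 := by
    simp only [sum_range_succ, prod_range_succ, range_zero, sum_empty, prod_empty]
    norm_num
  have h3 : (0 : ℝ) ≤ ∑ r ∈ range 13, (r : ℝ) / ∏ i ∈ range r, ((3 : ℝ) ^ (i + 1) - 1) :=
    sum_nonneg fun r _ => div_nonneg (Nat.cast_nonneg _)
      (le_trans (by positivity) (prod_pos' r))
  rw [h1]
  have h4 : c9 < 0.6391 := hc9.2.2.2.2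
  have h5 := hc9.2.1
  have h6 : c9 * ∑ r ∈ range 13, (r : ℝ) / ∏ i ∈ range r, ((3 : ℝ) ^ (i + 1) - 1) ≤
      0.6391 * 0.63235 := mul_le_mul h4.le h2.le h3 (by norm_num)
  have h7 : (0.6391 : ℝ) * 0.63235 + 13 / 3 ^ 14 * 6 < 0.4045 := by norm_num
  linarith

/-- **The average of the dimension.** -/
theorem t_RKA (hL : S_LAW) (hc9 : S_C9) : ∀ᶠ X : ℕ in atTop,
    ∑ D ∈ Pool.Agent.Y699.E.Cl X, (rr (ppr D) : ℝ) ≤
      0.4045 * ((Pool.Agent.Y699.E.Cl X).card : ℝ) := by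
  obtain ⟨c, hc, X1, h1⟩ := Pool.Agent.Y145.CT9.cnt9
  have hset : ∀ X : ℕ, {D : Ei | nr D ≤ X ∧ ClsE D} = ↑(Pool.Agent.Y699.E.Cl X) := by
    intro X
    ext D
    rw [mem_coe, mem_cl]
    rfl
  have hset2 : ∀ X r : ℕ, {D : Ei | nr D ≤ X ∧ ClsE D ∧ nS (ppr D) = 3 ^ (r + 1)} =
      ↑((Pool.Agent.Y699.E.Cl X).filter fun D => nS (ppr D) = 3 ^ (r + 1)) := by
    intro X r
    ext D
    rw [mem_coe, mem_filter, mem_cl]
    exact ⟨fun h => ⟨⟨h.1, h.2.1⟩, h.2.2⟩, fun h => ⟨h.1.1, h.1.2, h.2⟩⟩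
  have hL' : ∀ r : ℕ, Tendsto (fun X : ℕ =>
      (((Pool.Agent.Y699.E.Cl X).filter fun D => nS (ppr D) = 3 ^ (r + 1)).card : ℝ) /
        ((Pool.Agent.Y699.E.Cl X).card : ℝ)) atTop (nhds (cr r)) := by
    intro r
    refine (hL r).congr fun X => ?_
    rw [hset, hset2, Set.ncard_coe_finset, Set.ncard_coe_finset]
  have hT : Tendsto (fun X : ℕ => ∑ r ∈ range 13, (r : ℝ) *
      ((((Pool.Agent.Y699.E.Cl X).filter fun D => nS (ppr D) = 3 ^ (r + 1)).card : ℝ) /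
        ((Pool.Agent.Y699.E.Cl X).card : ℝ)) +
      13 / 3 ^ 14 * ((∑ D ∈ Pool.Agent.Y699.E.Cl X, (nS (ppr D) : ℝ)) /
    ((Pool.Agent.Y699.E.Cl X).card : ℝ))) atTop
      (nhds (∑ r ∈ range 13, (r : ℝ) * cr r + 13 / 3 ^ 14 * 6)) :=
    (tendsto_finsetSum _ fun r _ => (hL' r).const_mul _).add (t_AVG.const_mul _)
  filter_upwards [hT.eventually (gt_mem_nhds (lim_lt hc9)), eventually_ge_atTop X1,
    eventually_ge_atTop 1] with X hX hX1 hX3
  have h3 := h1 X hX1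
  rw [cls_card] at h3
  have hXp : (0 : ℝ) < X := by exact_mod_cast hX3
  obtain ⟨N, hN'⟩ : ∃ N : ℝ, N = ((Pool.Agent.Y699.E.Cl X).card : ℝ) := ⟨_, rfl⟩
  rw [← hN'] at hX h3 ⊢
  have hN : (0 : ℝ) < N := lt_of_lt_of_le (by positivity) h3
  have h5 : ∑ D ∈ Pool.Agent.Y699.E.Cl X, (rr (ppr D) : ℝ) ≤
      ∑ D ∈ Pool.Agent.Y699.E.Cl X, (∑ r ∈ range 13, (r : ℝ) *
        (if nS (ppr D) = 3 ^ (r + 1) then 1 else 0) + 13 / 3 ^ 14 * (nS (ppr D) : ℝ)) :=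
    sum_le_sum fun D hD => pt_le (cl_nonempty hD)
  have h6 : ∑ D ∈ Pool.Agent.Y699.E.Cl X, (∑ r ∈ range 13, (r : ℝ) *
        (if nS (ppr D) = 3 ^ (r + 1) then 1 else 0) + 13 / 3 ^ 14 * (nS (ppr D) : ℝ)) =
      ∑ r ∈ range 13, (r : ℝ) *
        (((Pool.Agent.Y699.E.Cl X).filter fun D => nS (ppr D) = 3 ^ (r + 1)).card : ℝ) +
      13 / 3 ^ 14 * ∑ D ∈ Pool.Agent.Y699.E.Cl X, (nS (ppr D) : ℝ) := by
    rw [sum_add_distrib, sum_comm, mul_sum]
    congr 1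
    refine sum_congr rfl fun r _ => ?_
    rw [← mul_sum, card_filter]
    push_cast
    rfl
  have h7 : ∑ r ∈ range 13, (r : ℝ) *
      ((((Pool.Agent.Y699.E.Cl X).filter fun D => nS (ppr D) = 3 ^ (r + 1)).card : ℝ) / N) +
      13 / 3 ^ 14 * ((∑ D ∈ Pool.Agent.Y699.E.Cl X, (nS (ppr D) : ℝ)) / N) =
      (∑ r ∈ range 13, (r : ℝ) *
        (((Pool.Agent.Y699.E.Cl X).filter fun D => nS (ppr D) = 3 ^ (r + 1)).card : ℝ) +
      13 / 3 ^ 14 * ∑ D ∈ Pool.Agent.Y699.E.Cl X, (nS (ppr D) : ℝ)) / N := by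
    rw [add_div, Finset.sum_div (range 13)]
    congr 1
    · refine sum_congr rfl fun r _ => ?_
      ring
    · ring
  rw [h7, div_lt_iff₀ hN] at hX
  rw [h6] at h5
  linarith

end Pool.Agent.Y703.XL
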